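import Mathlib

set_option autoImplicit false

namespace Pool.Agent.H.MP_5f1df6_co
open Finset Complex Matrix

abbrev V := Fin 4 → ZMod 5

noncomputable abbrev E : AddChar (ZMod 5) ℂ := ZMod.stdAddChar

def dot (c y : V) : ZMod 5 := ∑ j, c j * y j

/-- 26 points of the projective space over the field with five elements. -/
def L : List V :=
  [![1, 1, 0, 0], ![0, 0, 1, 1], ![1, 2, 1, 2], ![1, 2, 2, 4], ![1, 2, 3, 1], ![1, 2, 4, 3],
   ![1, 2, 1, 3], ![1, 2, 2, 1], ![1, 2, 3, 4], ![1, 2, 4, 2], ![1, 2, 1, 4], ![1, 2, 2, 3],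
   ![1, 2, 3, 2], ![1, 2, 4, 1], ![1, 3, 1, 2], ![1, 3, 2, 4], ![1, 3, 3, 1], ![1, 3, 4, 3],
   ![1, 3, 1, 3], ![1, 3, 2, 1], ![1, 3, 3, 4], ![1, 3, 4, 2], ![1, 4, 1, 2], ![1, 4, 2, 4],
   ![1, 4, 3, 1], ![1, 4, 4, 3]]

def line (l : V) : List V :=
  [fun j => 1 * l j, fun j => 2 * l j, fun j => 3 * l j, fun j => 4 * l j]

def CL : List V := L.flatMap line ++ [![0, 1, 0, 0], ![0, -1, 0, 0]]

/-- The connection set. -/
def C : Finset V := CL.toFinset

def code (c : V) : ℕ := (c 0).val + 5 * (c 1).val + 25 * (c 2).val + 125 * (c 3).val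

theorem nodup : CL.Nodup := List.Nodup.of_map code (by decide +kernel)

theorem zero_not : (0 : V) ∉ C := by
  rw [C, List.mem_toFinset]
  exact fun h => absurd (List.mem_map_of_mem (f := code) h) (by decide +kernel)

theorem neg_mem : ∀ c ∈ C, -c ∈ C := by
  intro c hc
  simp only [C, List.mem_toFinset, CL, List.mem_append, List.mem_flatMap] at hc ⊢
  rcases hc with ⟨l, hl, hc⟩ | hc
  · refine Or.inl ⟨l, hl, ?_⟩
    have h : ∀ k : ZMod 5, -(fun j => k * l j) = fun j => (-k) * l j := fun k => by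
      funext j
      simp
    simp only [line, List.mem_cons, List.not_mem_nil, or_false] at hc ⊢
    rcases hc with rfl | rfl | rfl | rfl <;> rw [h]
    · exact Or.inr (Or.inr (Or.inr rfl))
    · exact Or.inr (Or.inr (Or.inl rfl))
    · exact Or.inr (Or.inl rfl)
    · exact Or.inl rfl
  · right
    simp only [List.mem_cons, List.not_mem_nil, or_false] at hc ⊢
    rcases hc with rfl | rfl
    · right
      funext j
      fin_cases j <;> rfl
    · left
      funext j
      fin_cases j <;> rfl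

noncomputable def lam (y : V) : ℂ := ∑ c ∈ C, E (dot c y)

def N (y : V) : ℕ := L.countP fun l => dot l y = 0

def LN : List (ℕ × ℕ × ℕ × ℕ) := L.map fun l => ((l 0).val, (l 1).val, (l 2).val, (l 3).val)

theorem N_nat : ∀ a < 5, ∀ b < 5, ∀ c < 5, ∀ d < 5,
    ((LN.countP fun l => (l.1 * a + l.2.1 * b + l.2.2.1 * c + l.2.2.2 * d) % 5 = 0) +
      a * b ^ 3 + c * d ^ 3) % 5 = 1 := by decide +kernel

theorem N_mod (a b c d : ZMod 5) :
    ((N ![a, b, c, d] : ℕ) : ZMod 5) = 1 - (a * b ^ 3 + c * d ^ 3) := by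
  have h := N_nat _ (ZMod.val_lt a) _ (ZMod.val_lt b) _ (ZMod.val_lt c) _ (ZMod.val_lt d)
  have h2 : N ![a, b, c, d] = LN.countP fun l =>
      (l.1 * a.val + l.2.1 * b.val + l.2.2.1 * c.val + l.2.2.2 * d.val) % 5 = 0 := by
    rw [LN, List.countP_map, N]
    apply List.countP_congr
    intro l _
    simp only [Function.comp, decide_eq_true_eq]
    rw [← Nat.dvd_iff_mod_eq_zero, ← ZMod.natCast_eq_zero_iff]
    simp [dot, Fin.sum_univ_four]
  rw [← h2] at h
  have h3 := congrArg (Nat.cast : ℕ → ZMod 5) h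
  simp only [ZMod.natCast_mod] at h3
  push_cast at h3
  simp only [ZMod.natCast_val, ZMod.cast_id', id] at h3
  linear_combination h3

theorem sumE (s : ZMod 5) : ∑ x : ZMod 5, E (x * s) = if s = 0 then 5 else 0 := by
  rw [AddChar.sum_mulShift s (ZMod.isPrimitive_stdAddChar 5)]
  simp

theorem line_sum (l y : V) :
    ((line l).map fun c => E (dot c y)).sum = 5 * (if dot l y = 0 then 1 else 0) - 1 := by
  have h := sumE (dot l y)
  have h2 : ∑ x : ZMod 5, E (x * dot l y) = E (0 * dot l y) + E (1 * dot l y) + E (2 * dot l y) +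
      E (3 * dot l y) + E (4 * dot l y) := Fin.sum_univ_five (fun x : ZMod 5 => E (x * dot l y))
  have h3 : ∀ k : ZMod 5, dot (fun j => k * l j) y = k * dot l y := fun k => by
    simp only [dot, mul_sum, mul_assoc]
  rw [h2, zero_mul, AddChar.map_zero_eq_one] at h
  simp only [line, List.map_cons, List.map_nil, List.sum_cons, List.sum_nil, h3]
  split_ifs at h ⊢ <;> linear_combination h

theorem lines_sum (y : V) (M : List V) :
    ((M.flatMap line).map fun c => E (dot c y)).sum =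
      5 * (M.countP fun l => dot l y = 0 : ℕ) - M.length := by
  induction M with
  | nil => simp
  | cons l M ih =>
    rw [List.flatMap_cons, List.map_append, List.sum_append, ih, line_sum, List.countP_cons]
    by_cases h : dot l y = 0 <;> simp [h] <;> ring

theorem lam_eq (y : V) : lam y = 5 * N y - 26 + (E (y 1) + E (-y 1)) := by
  rw [lam, C, List.sum_toFinset _ nodup, CL, List.map_append, List.sum_append, lines_sum]
  have : L.length = 26 := rfl
  rw [this]
  simp [N, dot, Fin.sum_univ_four]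

/-- The mixing time. -/
noncomputable def t0 : ℝ := 2 * Real.pi / 25

noncomputable def u (y : V) : ℂ := exp (-(I * (t0 : ℂ) * lam y))

noncomputable def g (b : ZMod 5) : ℂ := E (-1) * exp (-(I * (t0 : ℂ) * (-26 + (E b + E (-b)))))

theorem normE (s : ZMod 5) : ‖E s‖ = 1 := by
  rw [ZMod.stdAddChar_apply]
  exact Circle.norm_coe _

theorem norm_g (b : ZMod 5) : ‖g b‖ = 1 := by
  rw [g, norm_mul, normE, one_mul, AddChar.map_neg_eq_conj, add_conj, norm_exp]
  simp

theorem u_eq (a b c d : ZMod 5) : u ![a, b, c, d] = E (a * b ^ 3 + c * d ^ 3) * g b := by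
  have h1 : E (a * b ^ 3 + c * d ^ 3) * E (-1) = E ((-(N ![a, b, c, d] : ℤ) : ℤ) : ZMod 5) := by
    rw [← AddChar.map_add_eq_mul]
    congr 1
    push_cast
    rw [N_mod]
    ring
  rw [g, ← mul_assoc, h1, ZMod.stdAddChar_coe, ← exp_add, u, lam_eq, t0]
  congr 1
  push_cast
  ring

theorem half (h : ZMod 5 → ℂ) (hh : ∀ b, ‖h b‖ = 1) (a : ZMod 5) :
    ‖∑ p : ZMod 5 × ZMod 5, h p.1 * E (p.2 * (p.1 ^ 3 + a))‖ = 5 := by
  have h1 : ∀ a b : ZMod 5, b ^ 3 + a = 0 ↔ b = -a ^ 3 := by decide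
  rw [Fintype.sum_prod_type]
  simp only [← mul_sum, sumE, h1, mul_ite, mul_zero, sum_ite_eq', mem_univ, if_true, norm_mul, hh]
  simp

def eqv : (ZMod 5 × ZMod 5) × (ZMod 5 × ZMod 5) ≃ V where
  toFun p := ![p.1.2, p.1.1, p.2.2, p.2.1]
  invFun y := ((y 1, y 0), (y 3, y 2))
  left_inv _ := rfl
  right_inv y := by
    funext j
    fin_cases j <;> rfl

theorem flat (a : V) : ‖∑ y, u y * E (dot a y)‖ = 25 := by
  have h1 := half (fun b => g b * E (a 1 * b)) (fun b => by rw [norm_mul, norm_g, normE, one_mul]) (a 0)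
  have h2 := half (fun d => E (a 3 * d)) (fun d => normE _) (a 2)
  rw [← eqv.sum_comp, Fintype.sum_prod_type]
  have : ∀ p q : ZMod 5 × ZMod 5, u (eqv (p, q)) * E (dot a (eqv (p, q))) =
      (g p.1 * E (a 1 * p.1) * E (p.2 * (p.1 ^ 3 + a 0))) *
        (E (a 3 * q.1) * E (q.2 * (q.1 ^ 3 + a 2))) := by
    intro p q
    have h3 : dot a (eqv (p, q)) = a 0 * p.2 + a 1 * p.1 + a 2 * q.2 + a 3 * q.1 := by
      rw [dot, Fin.sum_univ_four]
      rfl
    have h4 : u (eqv (p, q)) = E (p.2 * p.1 ^ 3 + q.2 * q.1 ^ 3) * g p.1 := u_eq _ _ _ _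
    rw [h3, h4]
    simp only [mul_add, AddChar.map_add_eq_mul, mul_comm (a 0), mul_comm (a 2)]
    ring
  simp only [this]
  rw [← sum_mul_sum, norm_mul, h1, h2]
  norm_num

/-- `E 1 + E (-1)` is irrational. -/
theorem irr (r : ℚ) : E 1 + E (-1) ≠ (r : ℂ) := by
  intro h
  have h0 := line_sum ![1, 0, 0, 0] ![1, 0, 0, 0]
  have h1 : E 1 * E (-1) = 1 := by rw [← AddChar.map_add_eq_mul]; simp
  have h2 : E 1 * E 1 = E 2 := by rw [← AddChar.map_add_eq_mul]; rfl
  have h3 : E (-1) * E (-1) = E 3 := by rw [← AddChar.map_add_eq_mul]; rfl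
  have h4 : E 4 = E (-1) := rfl
  have h5 : E 1 + E 2 + E 3 + E 4 = -1 := by
    have h1 : (1 : ZMod 5) ≠ 0 := by decide
    simp [line, dot, Fin.sum_univ_four, h1] at h0
    linear_combination h0
  have h6 : (r : ℂ) ^ 2 + r - 1 = 0 := by
    rw [← h]
    linear_combination h5 + 2 * h1 + h2 + h3 - h4
  have h7 : ((2 * r + 1 : ℚ) : ℝ) ^ 2 = (5 : ℕ) := by
    have : r ^ 2 + r - 1 = 0 := by exact_mod_cast h6
    have h8 : (2 * r + 1) ^ 2 = 5 := by linear_combination 4 * this
    exact_mod_cast h8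
  have h9 : Irrational (√((5 : ℕ) : ℝ)) := Nat.Prime.irrational_sqrt (by norm_num)
  rw [← h7, Real.sqrt_sq_eq_abs] at h9
  exact h9 ⟨|2 * r + 1|, by push_cast; rfl⟩

theorem lam_irr (r : ℚ) : lam ![0, 1, 0, 0] ≠ (r : ℂ) := by
  intro h
  rw [lam_eq] at h
  apply irr (r + 26 - 5 * N ![0, 1, 0, 0])
  push_cast
  simp only [cons_val_one, cons_val_zero] at h
  linear_combination h

theorem E_eq (s : ZMod 5) :
    E s = exp (2 * (Real.pi : ℂ) * I * ((s.val : ℕ) : ℂ) / ((5 : ℕ) : ℂ)) := by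
  rw [ZMod.stdAddChar_apply, ZMod.toCircle_apply]

theorem exp_eig {n : Type} [Fintype n] [DecidableEq n] (M : Matrix n n ℂ) (w : n → ℂ) (l : ℂ)
    (h : M *ᵥ w = l • w) : NormedSpace.exp M *ᵥ w = Complex.exp l • w := by
  have h1 : HasSum (fun k : ℕ => ((k.factorial : ℂ)⁻¹) • M ^ k) (NormedSpace.exp M) :=
    open scoped Matrix.Norms.Operator in NormedSpace.exp_series_hasSum_exp' M
  have h2 := h1.map
    (AddMonoidHom.mk' (fun N : Matrix n n ℂ => N *ᵥ w) fun a b => add_mulVec a b w)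
    (Continuous.matrix_mulVec continuous_id continuous_const)
  have h3 : ∀ k : ℕ, M ^ k *ᵥ w = l ^ k • w := fun k => by
    induction k with
    | zero => simp
    | succ k ih => rw [pow_succ, ← mulVec_mulVec, h, mulVec_smul, ih, smul_smul, pow_succ, mul_comm]
  have h4 := (NormedSpace.exp_series_hasSum_exp' (𝕂 := ℂ) l).smul_const w
  rw [Complex.exp_eq_exp_ℂ]
  refine h2.unique ?_
  convert h4 using 2 with k
  simp [smul_mulVec, h3, smul_smul]

end Pool.Agent.H.MP_5f1df6_co
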